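import Pool.Agent.L7h99.GF.Stm

set_option autoImplicit false

/-!
# Project GF, part GF0: the limit `δ → 0`
-/

open MeasureTheory Set Filter Topology Real
open scoped ENNReal

namespace Pool.Agent.L7h65.GF

open Pool.Agent.L7h99.LS Pool.Agent.L7h99.SC Pool.Agent.L7h99.GF

variable {d n : ℕ} {f : Fin n → (Fin d → ℝ) → ℝ}

theorem pd_zero (hf : ∀ i, ContDiff ℝ 1 (f i)) {x : Fin d → ℝ} (hx : den f x = 0) (k : Fin d) :
    LTd.pd k (den f) x = 0 := by
  have h := pd_den_sq hf x k
  rw [hx, mul_zero, zero_mul] at h
  exact pow_eq_zero_iff two_ne_zero |>.1 (le_antisymm h (sq_nonneg _))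

theorem fis_tendsto (hf : ∀ i, ContDiff ℝ 1 (f i)) (hfc : ∀ i, HasCompactSupport (f i)) :
    Tendsto (fun δ => fis δ f) (𝓝[>] 0) (𝓝 (fis0 f)) := by
  unfold fis fis0
  apply tendsto_integral_filter_of_dominated_convergence
    (bound := fun x => 4 * ∑ k, ∑ i, LTd.pd k (f i) x ^ 2)
  · filter_upwards [self_mem_nhdsWithin] with δ hδ
    exact (integrable_finsetSum _ fun k _ => fis_integrable hf hfc hδ k).aestronglyMeasurable
  · filter_upwards [self_mem_nhdsWithin] with δ hδ
    have hδ' : 0 < δ := hδ
    refine ae_of_all _ fun x => ?_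
    have h0 := den_nonneg f x
    rw [Real.norm_of_nonneg (Finset.sum_nonneg fun k _ => by positivity), Finset.mul_sum]
    refine Finset.sum_le_sum fun k _ => ?_
    have h2 : 0 ≤ ∑ i, LTd.pd k (f i) x ^ 2 := Finset.sum_nonneg fun i _ => sq_nonneg _
    rw [div_le_iff₀ (by positivity)]
    have := pd_den_sq hf x k
    nlinarith
  · exact (kin_integrable hf hfc).const_mul 4
  · refine ae_of_all _ fun x => ?_
    refine tendsto_finsetSum _ fun k _ => ?_
    by_cases hx : den f x = 0
    · simp [pd_zero hf hx k]
    · have h1 : Tendsto (fun δ : ℝ => den f x + δ) (𝓝[>] 0) (𝓝 (den f x + 0)) :=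
        (tendsto_const_nhds.add tendsto_id).mono_left nhdsWithin_le_nhds
      rw [add_zero] at h1
      exact tendsto_const_nhds.div h1 hx

theorem log_tendsto (hf : ∀ i, ContDiff ℝ 1 (f i)) (hfc : ∀ i, HasCompactSupport (f i)) :
    Tendsto (fun δ => ∫ x, den f x * Real.log (den f x + δ)) (𝓝[>] 0)
      (𝓝 (∫ x, den f x * Real.log (den f x))) := by
  have cd : Continuous (den f) := (den_C1 hf).continuous
  have hc1 : Continuous fun x => den f x * Real.log (den f x) := Real.continuous_mul_log.comp cd
  have hc2 : ∀ δ : ℝ, 0 < δ → Continuous fun x => den f x * Real.log (den f x + δ) := by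
    intro δ hδ
    refine cd.mul ((cd.add continuous_const).log fun x => ?_)
    have := den_nonneg f x
    exact (add_pos_of_nonneg_of_pos this hδ).ne'
  have i1 : Integrable fun x => den f x * Real.log (den f x) :=
    hc1.integrable_of_hasCompactSupport ((den_supp hfc).mul_right)
  have i2 : Integrable fun x => den f x * Real.log (den f x + 1) :=
    (hc2 1 one_pos).integrable_of_hasCompactSupport ((den_supp hfc).mul_right)
  apply tendsto_integral_filter_of_dominated_convergence
    (bound := fun x => |den f x * Real.log (den f x)| + |den f x * Real.log (den f x + 1)|)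
  · filter_upwards [self_mem_nhdsWithin] with δ hδ
    exact (hc2 δ hδ).aestronglyMeasurable
  · filter_upwards [Ioo_mem_nhdsGT one_pos] with δ hδ
    refine ae_of_all _ fun x => ?_
    rcases (den_nonneg f x).eq_or_lt with h0 | h0
    · rw [← h0]; simp
    · have e1 : Real.log (den f x) ≤ Real.log (den f x + δ) :=
        Real.log_le_log h0 (by linarith [hδ.1])
      have e2 : Real.log (den f x + δ) ≤ Real.log (den f x + 1) :=
        Real.log_le_log (by linarith [hδ.1]) (by linarith [hδ.2])
      have e3 : den f x * Real.log (den f x) ≤ den f x * Real.log (den f x + δ) :=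
        mul_le_mul_of_nonneg_left e1 h0.le
      have e4 : den f x * Real.log (den f x + δ) ≤ den f x * Real.log (den f x + 1) :=
        mul_le_mul_of_nonneg_left e2 h0.le
      rw [Real.norm_eq_abs, abs_le]
      constructor
      · have := neg_abs_le (den f x * Real.log (den f x))
        have := abs_nonneg (den f x * Real.log (den f x + 1))
        linarith
      · have := le_abs_self (den f x * Real.log (den f x + 1))
        have := abs_nonneg (den f x * Real.log (den f x))
        linarith
  · exact i1.abs.add i2.abs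
  · refine ae_of_all _ fun x => ?_
    rcases (den_nonneg f x).eq_or_lt with h0 | h0
    · rw [← h0]; simp
    · have h1 : Tendsto (fun δ : ℝ => den f x + δ) (𝓝[>] 0) (𝓝 (den f x + 0)) :=
        (tendsto_const_nhds.add tendsto_id).mono_left nhdsWithin_le_nhds
      rw [add_zero] at h1
      exact tendsto_const_nhds.mul (h1.log h0.ne')

theorem t_GF0 : S_GF → S_GF0 := by
  intro hGF d n f hf hfc hG s hs
  have cd : Continuous (den f) := (den_C1 hf).continuous
  have id : Integrable (den f) := cd.integrable_of_hasCompactSupport (den_supp hfc)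
  have h0 : 0 ≤ ∫ x, den f x := integral_nonneg fun x => den_nonneg f x
  rcases h0.eq_or_lt with h0 | h0
  · have hz : den f =ᵐ[volume] 0 :=
      (integral_eq_zero_iff_of_nonneg (fun x => den_nonneg f x) id).1 h0.symm
    have hz' : den f = 0 := (Continuous.ae_eq_iff_eq volume cd continuous_zero).1 hz
    have e1 : fis0 f = 0 := by
      unfold fis0
      rw [hz']
      simp
    have e2 : ∫ x, den f x * Real.log (den f x) = 0 := by rw [hz']; simp
    rw [e1, e2, ← h0]
    have := mul_nonneg hs.le (kin_nonneg f)
    linarith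
  · set Ω : Set (Fin d → ℝ) := ⋃ i, tsupport (f i) with hΩ
    have hK : IsCompact Ω := isCompact_iUnion fun i => hfc i
    have hf0 : ∀ i, ∀ x ∉ Ω, f i x = 0 := fun i x hx =>
      image_eq_zero_of_notMem_tsupport fun hx' => hx (mem_iUnion.2 ⟨i, hx'⟩)
    have key : ∀ δ : ℝ, 0 < δ → _ := fun δ hδ =>
      hGF d n f hf hfc hG Ω hK.isClosed.measurableSet hK.measure_lt_top.ne hf0 h0 δ hδ s hs
    have hlim : Tendsto (fun δ : ℝ => s / 16 * fis δ f + (∫ x, den f x * Real.log (den f x + δ)) +
        (∫ x, den f x) * ((d : ℝ) / 2 * Real.log (4 * π * s) + Real.log (∫ x, den f x) -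
          Real.log ((∫ x, den f x) + δ * (volume Ω).toReal))) (𝓝[>] 0)
        (𝓝 (s / 16 * fis0 f + (∫ x, den f x * Real.log (den f x)) +
          (∫ x, den f x) * ((d : ℝ) / 2 * Real.log (4 * π * s) + Real.log (∫ x, den f x) -
            Real.log ((∫ x, den f x) + 0 * (volume Ω).toReal)))) := by
      refine ((fis_tendsto hf hfc).const_mul _ |>.add (log_tendsto hf hfc)).add ?_
      refine tendsto_const_nhds.mul (tendsto_const_nhds.sub ?_)
      have h1 : Tendsto (fun δ : ℝ => (∫ x, den f x) + δ * (volume Ω).toReal) (𝓝[>] 0)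
          (𝓝 ((∫ x, den f x) + 0 * (volume Ω).toReal)) :=
        (tendsto_const_nhds.add (tendsto_id.mul_const _)).mono_left nhdsWithin_le_nhds
      exact h1.log (by rw [zero_mul, add_zero]; exact h0.ne')
    have h2 := le_of_tendsto hlim (by
      filter_upwards [self_mem_nhdsWithin] with δ hδ
      exact key δ hδ)
    rw [zero_mul, add_zero] at h2
    have e : (d : ℝ) / 2 * Real.log (4 * π * s) + Real.log (∫ x, den f x) -
        Real.log (∫ x, den f x) = (d : ℝ) / 2 * Real.log (4 * π * s) := by ring
    rw [e] at h2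
    exact h2

end Pool.Agent.L7h65.GF
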