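import Pool.Agent.L7h99.GF.Stm

set_option autoImplicit false

/-!
# Project GF, parts KIT and PC: composition of kernels, Cauchy-Schwarz for path kernels
-/

open MeasureTheory Set Filter Topology Real
open scoped ENNReal

namespace Pool.Agent.L7h65.GF

open Pool.Agent.L7h99.LS Pool.Agent.L7h99.SC Pool.Agent.L7h99.GF

section comp

variable {X : Type} [MeasurableSpace X] {μ : Measure X} [SFinite μ] {κ : X → X → ℝ≥0∞}

theorem Kp_meas (hκ : Measurable (Function.uncurry κ)) (n : ℕ) :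
    Measurable (Function.uncurry (Kp μ κ n)) := by
  induction n with
  | zero => exact hκ
  | succ n ih =>
    have h1 : Measurable (fun p : (X × X) × X => κ p.1.1 p.2 * Kp μ κ n p.2 p.1.2) := by
      have a1 : Measurable (fun p : (X × X) × X => κ p.1.1 p.2) :=
        hκ.comp ((measurable_fst.comp measurable_fst).prodMk measurable_snd)
      have a2 : Measurable (fun p : (X × X) × X => Kp μ κ n p.2 p.1.2) :=
        ih.comp (measurable_snd.prodMk (measurable_snd.comp measurable_fst))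
      exact a1.mul a2
    exact h1.lintegral_prod_right'

theorem Kp_meas' (hκ : Measurable (Function.uncurry κ)) (n : ℕ) (y : X) :
    Measurable (fun x => Kp μ κ n x y) :=
  (Kp_meas hκ n).comp (measurable_id.prodMk measurable_const)

theorem Kp_meas'' (hκ : Measurable (Function.uncurry κ)) (n : ℕ) (x : X) :
    Measurable (fun y => Kp μ κ n x y) :=
  (Kp_meas hκ n).comp (measurable_const.prodMk measurable_id)

theorem Kp_comp (hκ : Measurable (Function.uncurry κ)) (a b : ℕ) (x y : X) :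
    ∫⁻ z, Kp μ κ a x z * Kp μ κ b z y ∂μ = Kp μ κ (a + b + 1) x y := by
  induction a generalizing x with
  | zero => rw [Nat.zero_add]; rfl
  | succ a ih =>
    have e1 : ∀ z, Kp μ κ (a + 1) x z * Kp μ κ b z y =
        ∫⁻ w, κ x w * Kp μ κ a w z * Kp μ κ b z y ∂μ := by
      intro z
      have hm : Measurable fun w => κ x w * Kp μ κ a w z :=
        (hκ.comp (measurable_const.prodMk measurable_id)).mul (Kp_meas' hκ a z)
      rw [lintegral_mul_const _ hm]
      rfl
    simp_rw [e1]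
    rw [lintegral_lintegral_swap]
    · have e2 : ∀ w, ∫⁻ z, κ x w * Kp μ κ a w z * Kp μ κ b z y ∂μ =
          κ x w * Kp μ κ (a + b + 1) w y := by
        intro w
        have hm : Measurable fun z => Kp μ κ a w z * Kp μ κ b z y :=
          (Kp_meas'' hκ a w).mul (Kp_meas' hκ b y)
        rw [← ih w, ← lintegral_const_mul _ hm]
        simp_rw [mul_assoc]
      simp_rw [e2]
      rw [show a + 1 + b + 1 = (a + b + 1) + 1 by ring]
      rfl
    · refine Measurable.aemeasurable ?_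
      have a1 : Measurable (fun p : X × X => κ x p.2) :=
        hκ.comp (measurable_const.prodMk measurable_snd)
      have a2 : Measurable (fun p : X × X => Kp μ κ a p.2 p.1) :=
        (Kp_meas hκ a).comp (measurable_snd.prodMk measurable_fst)
      have a3 : Measurable (fun p : X × X => Kp μ κ b p.1 y) :=
        (Kp_meas hκ b).comp (measurable_fst.prodMk measurable_const)
      exact (a1.mul a2).mul a3

theorem It_eq (hκ : Measurable (Function.uncurry κ)) (i : ℕ) :
    It μ i κ = Kp μ κ (2 ^ i - 1) := by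
  induction i with
  | zero => rfl
  | succ i ih =>
    funext x y
    show ∫⁻ z, It μ i κ x z * It μ i κ z y ∂μ = _
    rw [ih, Kp_comp hκ]
    congr 1
    have : 1 ≤ 2 ^ i := Nat.one_le_two_pow
    rw [pow_succ]; omega

/-- Cauchy-Schwarz for path kernels. -/
theorem Kp_cs {k₁ k₂ : X → X → ℝ≥0∞} (h₁ : Measurable (Function.uncurry k₁))
    (h₂ : Measurable (Function.uncurry k₂)) (h : X → ℝ≥0∞) (h0 : ∀ x, h x ≠ 0) (ht : ∀ x, h x ≠ ∞)
    (hk : ∀ u v, κ u v ≤ h u * (k₁ u v ^ (1 / 2 : ℝ) * k₂ v u ^ (1 / 2 : ℝ)) * (h v)⁻¹)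
    (n : ℕ) (x y : X) :
    Kp μ κ n x y ≤ h x * (Kp μ k₁ n x y ^ (1 / 2 : ℝ) * Kp μ k₂ n y x ^ (1 / 2 : ℝ)) * (h y)⁻¹ := by
  induction n generalizing x with
  | zero => exact hk x y
  | succ n ih =>
    have m1 : Measurable fun z => k₁ x z * Kp μ k₁ n z y :=
      (h₁.comp (measurable_const.prodMk measurable_id)).mul (Kp_meas' h₁ n y)
    have m2 : Measurable fun z => Kp μ k₂ n y z * k₂ z x :=
      (Kp_meas'' h₂ n y).mul (h₂.comp (measurable_id.prodMk measurable_const))
    calc Kp μ κ (n + 1) x y = ∫⁻ z, κ x z * Kp μ κ n z y ∂μ := rfl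
      _ ≤ ∫⁻ z, (h x * (h y)⁻¹) * ((k₁ x z * Kp μ k₁ n z y) ^ (1 / 2 : ℝ) *
            (Kp μ k₂ n y z * k₂ z x) ^ (1 / 2 : ℝ)) ∂μ := by
          apply lintegral_mono
          intro z
          refine (mul_le_mul' (hk x z) (ih z)).trans (le_of_eq ?_)
          beta_reduce
          rw [ENNReal.mul_rpow_of_nonneg _ _ (by norm_num : (0:ℝ) ≤ 1 / 2),
            ENNReal.mul_rpow_of_nonneg _ _ (by norm_num : (0:ℝ) ≤ 1 / 2)]
          have := ENNReal.inv_mul_cancel (h0 z) (ht z)
          calc _ = (h x * (h y)⁻¹) * (k₁ x z ^ (1 / 2 : ℝ) * Kp μ k₁ n z y ^ (1 / 2 : ℝ) *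
                (Kp μ k₂ n y z ^ (1 / 2 : ℝ) * k₂ z x ^ (1 / 2 : ℝ))) * ((h z)⁻¹ * h z) := by ring
            _ = _ := by rw [this, mul_one]
      _ = (h x * (h y)⁻¹) * ∫⁻ z, ((k₁ x z * Kp μ k₁ n z y) ^ (1 / 2 : ℝ) *
            (Kp μ k₂ n y z * k₂ z x) ^ (1 / 2 : ℝ)) ∂μ :=
          lintegral_const_mul _ ((m1.pow_const _).mul (m2.pow_const _))
      _ ≤ (h x * (h y)⁻¹) * ((∫⁻ z, k₁ x z * Kp μ k₁ n z y ∂μ) ^ (1 / 2 : ℝ) *
            (∫⁻ z, Kp μ k₂ n y z * k₂ z x ∂μ) ^ (1 / 2 : ℝ)) := by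
          gcongr
          have := ENNReal.lintegral_mul_norm_pow_le (μ := μ) (p := 1 / 2) (q := 1 / 2)
            m1.aemeasurable m2.aemeasurable (by norm_num) (by norm_num) (by norm_num)
          exact this
      _ = _ := by
          have e2 : ∫⁻ z, Kp μ k₂ n y z * k₂ z x ∂μ = Kp μ k₂ (n + 1) y x :=
            Kp_comp h₂ n 0 y x
          rw [e2]
          show (h x * (h y)⁻¹) * (Kp μ k₁ (n + 1) x y ^ (1 / 2 : ℝ) * _) = _
          ring

end comp

theorem t_KIT : S_KIT := fun _ _ _ _ _ hκ i => It_eq hκ i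

end Pool.Agent.L7h65.GF
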