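import Pool.Agent.L7h65.GF.Kit

set_option autoImplicit false

/-!
# Project GF, part PC
-/

open MeasureTheory Set Filter Topology Real
open scoped ENNReal

namespace Pool.Agent.L7h65.GF

open Pool.Agent.L7h99.LS Pool.Agent.L7h99.SC Pool.Agent.L7h99.GF

variable {d : ℕ}

theorem dt_comm (a z : Fin d → ℝ) : dt a z = dt z a := by
  unfold dt; exact Finset.sum_congr rfl fun k _ => mul_comm _ _

theorem dt_sub (a c z : Fin d → ℝ) : dt (a - c) z = dt a z - dt c z := by
  unfold dt; rw [← Finset.sum_sub_distrib]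
  exact Finset.sum_congr rfl fun k _ => by simp only [Pi.sub_apply]; ring

theorem dt_smul (t : ℝ) (a z : Fin d → ℝ) : dt (t • a) z = t * dt a z := by
  unfold dt; rw [Finset.mul_sum]
  exact Finset.sum_congr rfl fun k _ => by simp only [Pi.smul_apply, smul_eq_mul]; ring

theorem dt_neg (a z : Fin d → ℝ) : dt a (-z) = -dt a z := by
  unfold dt; rw [← Finset.sum_neg_distrib]
  exact Finset.sum_congr rfl fun k _ => by simp only [Pi.neg_apply]; ring

theorem dt_expand (D a : Fin d → ℝ) (t : ℝ) :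
    dt (D - t • a) (D - t • a) = dt D D - 2 * t * dt a D + t ^ 2 * dt a a := by
  unfold dt
  rw [Finset.mul_sum, Finset.mul_sum, ← Finset.sum_sub_distrib, ← Finset.sum_add_distrib]
  exact Finset.sum_congr rfl fun k _ => by
    simp only [Pi.sub_apply, Pi.smul_apply, smul_eq_mul]; ring

theorem G_eq (τ : ℝ) (z : Fin d → ℝ) :
    G τ z = (√(4 * π * τ))⁻¹ ^ d * Real.exp (-(dt z z / (4 * τ))) := by
  unfold G dt
  rw [Finset.prod_mul_distrib, Finset.prod_const, Finset.card_univ, Fintype.card_fin,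
    ← Real.exp_sum, Finset.sum_neg_distrib, Finset.sum_div]
  simp only [sq]

theorem GE (τ : ℝ) (w : Fin d → ℝ) (e : ℝ) : G τ w * Real.exp e =
    (√(4 * π * τ))⁻¹ ^ d * Real.exp (-(dt w w / (4 * τ)) + e) := by
  rw [G_eq, mul_assoc, ← Real.exp_add]

theorem dt_meas {X : Type} [MeasurableSpace X] {a z : X → Fin d → ℝ} (ha : Measurable a)
    (hz : Measurable z) : Measurable fun x => dt (a x) (z x) := by
  unfold dt
  exact Finset.measurable_sum _ fun k _ =>
    ((measurable_pi_apply k).comp ha).mul ((measurable_pi_apply k).comp hz)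

theorem G_meas {X : Type} [MeasurableSpace X] (τ : ℝ) {z : X → Fin d → ℝ}
    (hz : Measurable z) : Measurable fun x => G τ (z x) := by
  simp_rw [G_eq]
  exact ((Real.measurable_exp.comp (((dt_meas hz hz).div_const _).neg)).const_mul _)

theorem kf_meas (θ τ : ℝ) {b : (Fin d → ℝ) → Fin d → ℝ} (hb : Measurable b) :
    Measurable (Function.uncurry fun u v => ENNReal.ofReal (kf θ τ b u v)) := by
  have bu : Measurable fun p : (Fin d → ℝ) × (Fin d → ℝ) => b p.1 := hb.comp measurable_fst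
  have bv : Measurable fun p : (Fin d → ℝ) × (Fin d → ℝ) => b p.2 := hb.comp measurable_snd
  have h1 : Measurable fun p : (Fin d → ℝ) × (Fin d → ℝ) => G τ (p.1 - p.2) :=
    G_meas τ (measurable_fst.sub measurable_snd)
  have h2 : Measurable fun p : (Fin d → ℝ) × (Fin d → ℝ) =>
      Real.exp (θ * (-(1 / 8) * dt (b p.2 - b p.1) (p.2 - p.1) -
        τ / 16 * (dt (b p.1) (b p.1) + dt (b p.2) (b p.2)))) :=
    Real.measurable_exp.comp (((((dt_meas (bv.sub bu) (measurable_snd.sub measurable_fst)).const_mul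
      _)).sub (((dt_meas bu bu).add (dt_meas bv bv)).const_mul _)).const_mul _)
  exact (h1.mul h2).ennreal_ofReal

theorem kx_meas (m : ℕ) (τ : ℝ) {b : (Fin d → ℝ) → Fin d → ℝ} (hb : Measurable b)
    (ξ : Fin d → ℝ) : Measurable (Function.uncurry (kx m τ b ξ)) := by
  have bu : Measurable fun p : (Fin d → ℝ) × (Fin d → ℝ) => b p.1 := hb.comp measurable_fst
  have h1 : Measurable fun p : (Fin d → ℝ) × (Fin d → ℝ) =>
      G τ (p.2 - p.1 - (τ / 2) • b p.1) :=
    G_meas τ ((measurable_snd.sub measurable_fst).sub (bu.fun_const_smul (τ / 2)))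
  have h2 : Measurable fun p : (Fin d → ℝ) × (Fin d → ℝ) =>
      Real.exp (-(τ / 16) * dt (b p.1) (b p.1) + 1 / (4 * m) * dt (b p.1) ξ) :=
    Real.measurable_exp.comp (((dt_meas bu bu).const_mul _).add
      ((dt_meas bu measurable_const).const_mul _))
  exact (h1.mul h2).ennreal_ofReal

theorem sqrt_split {A E₁ E₂ : ℝ} (hA : 0 < A) :
    ENNReal.ofReal (A * Real.exp E₁) ^ (1 / 2 : ℝ) * ENNReal.ofReal (A * Real.exp E₂) ^ (1 / 2 : ℝ) =
      ENNReal.ofReal (A * Real.exp ((E₁ + E₂) / 2)) := by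
  rw [← ENNReal.mul_rpow_of_nonneg _ _ (by norm_num), ← ENNReal.ofReal_mul (by positivity),
    ENNReal.ofReal_rpow_of_nonneg (by positivity) (by norm_num)]
  congr 1
  rw [← Real.sqrt_eq_rpow]
  have : A * Real.exp E₁ * (A * Real.exp E₂) = (A * Real.exp ((E₁ + E₂) / 2)) ^ 2 := by
    rw [mul_pow, sq (Real.exp _), ← Real.exp_add, show (E₁ + E₂) / 2 + (E₁ + E₂) / 2 = E₁ + E₂ by
      ring, Real.exp_add]
    ring
  rw [this, Real.sqrt_sq (by positivity)]

theorem kf_le (m : ℕ) {τ : ℝ} (hτ : 0 < τ) (b : (Fin d → ℝ) → Fin d → ℝ) (ξ u v : Fin d → ℝ) :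
    ENNReal.ofReal (kf 1 τ b u v) =
      ENNReal.ofReal (Real.exp (-(1 / (8 * m)) * dt (b u) ξ)) *
        (kx m τ b ξ u v ^ (1 / 2 : ℝ) * kx m τ b (-ξ) v u ^ (1 / 2 : ℝ)) *
        (ENNReal.ofReal (Real.exp (-(1 / (8 * m)) * dt (b v) ξ)))⁻¹ := by
  have hA : 0 < (√(4 * π * τ))⁻¹ ^ d := by positivity
  unfold kx kf
  rw [GE, GE, GE, sqrt_split hA, ← ENNReal.ofReal_inv_of_pos (Real.exp_pos _), ← Real.exp_neg,
    ← ENNReal.ofReal_mul (by positivity), ← ENNReal.ofReal_mul (by positivity)]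
  congr 1
  have e0 : u - v = -(v - u) := (neg_sub v u).symm
  have e1 := dt_expand (v - u) (b u) (τ / 2)
  have e2 := dt_expand (u - v) (b v) (τ / 2)
  have e3 : dt (u - v) (u - v) = dt (v - u) (v - u) := by
    rw [e0, dt_neg, dt_comm, dt_neg, neg_neg]
  have e4 : dt (b v) (u - v) = -dt (b v) (v - u) := by rw [e0, dt_neg]
  have gen : ∀ A a Y c : ℝ, Real.exp a * (A * Real.exp Y) * Real.exp c =
      A * Real.exp (a + Y + c) := by
    intro A a Y c
    rw [Real.exp_add, Real.exp_add]; ring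
  rw [e1, e2, e3, e4, dt_sub (b v) (b u), dt_neg, gen]
  congr 2
  rcases Nat.eq_zero_or_pos m with hm | hm
  · subst hm
    simp only [Nat.cast_zero, mul_zero, div_zero]
    field_simp
    ring
  · have hm' : (m : ℝ) ≠ 0 := by positivity
    field_simp
    ring

theorem t_PC : S_KIT → S_PC := by
  intro _ d i τ b hτ hb x y
  rw [It_eq (kf_meas 1 τ hb)]
  set m : ℕ := 2 ^ i with hm
  set ξ : Fin d → ℝ := y - x with hξ
  have h0 : ∀ u, ENNReal.ofReal (Real.exp (-(1 / (8 * m)) * dt (b u) ξ)) ≠ 0 := fun u => by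
    simp [Real.exp_pos]
  have h1 : ∀ u, ENNReal.ofReal (Real.exp (-(1 / (8 * m)) * dt (b u) ξ)) ≠ ∞ := fun u => by
    simp
  refine (Kp_cs (kx_meas m τ hb ξ) (kx_meas m τ hb (-ξ))
    (fun u => ENNReal.ofReal (Real.exp (-(1 / (8 * m)) * dt (b u) ξ))) h0 h1
    (fun u v => (kf_le m hτ b ξ u v).le) (m - 1) x y).trans (le_of_eq ?_)
  unfold PP
  have e0 : x - y = -ξ := (neg_sub y x).symm
  rw [e0, ← hξ, ENNReal.mul_rpow_of_nonneg _ _ (by norm_num : (0:ℝ) ≤ 1 / 2),
    ENNReal.mul_rpow_of_nonneg _ _ (by norm_num : (0:ℝ) ≤ 1 / 2),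
    ENNReal.ofReal_rpow_of_nonneg (by positivity) (by norm_num),
    ENNReal.ofReal_rpow_of_nonneg (by positivity) (by norm_num), ← Real.exp_mul, ← Real.exp_mul,
    ← ENNReal.ofReal_inv_of_pos (Real.exp_pos _), ← Real.exp_neg, dt_neg]
  have e1 : -(1 / (4 * (m : ℝ))) * dt (b x) ξ * (1 / 2) = -(1 / (8 * m)) * dt (b x) ξ := by
    rw [show (8 : ℝ) * m = 4 * m * 2 by ring, ← div_div]; ring
  have e2 : -(1 / (4 * (m : ℝ))) * -dt (b y) ξ * (1 / 2) = -(-(1 / (8 * m)) * dt (b y) ξ) := by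
    rw [show (8 : ℝ) * m = 4 * m * 2 by ring, ← div_div]; ring
  rw [e1, e2]
  ring

end Pool.Agent.L7h65.GF
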